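import Pool.Agent.Helper66.TU.Defs

/-!
# TU MODULE OP (MP_ed3816_nt): affine operations with residues and digits prescribed independently
-/

set_option autoImplicit false

namespace GWA

section OP

variable {K : Type} [NormedField K] [Algebra GaussianInt K] [NeZero (2 : K)] [DecidableEq K]
  {π : GaussianInt} {A : (d : Kˣ) → E (d : K) → E (d : K) → Prop}

/-- powers of `π` act as contractions -/
theorem LHU.op_pow (h : LHU K π) {d : Kˣ} {ε : E (d : K)} (hε : ε ∈ nb π (d : K) 0) (N : ℕ) :
    π ^ N • ε ∈ nb π (d : K) N := by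
  induction N with
  | zero => rw [pow_zero, one_smul]; exact hε
  | succ N ih =>
    rw [pow_succ', mul_smul]
    exact h.nb_pi_smul d N ih

/-- simultaneous congruences -/
theorem LHU.op_crt (h : LHU K π) {n : GaussianInt} (hn : ¬ π ∣ n) (N : ℕ) (α a : GaussianInt) :
    ∃ l s t : GaussianInt, l = α + s * n ∧ l = a + t * π ^ N := by
  obtain ⟨u, v, huv⟩ : IsCoprime (π ^ N) n :=
    ((h.prime.irreducible.coprime_iff_not_dvd).2 hn).pow_left
  refine ⟨α + (a - α) * v * n, (a - α) * v, (α - a) * u, rfl, ?_⟩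
  linear_combination (a - α) * huv

theorem MSt.op (hA : MSt π A) (h : LHU K π) {d : Kˣ} {n : GaussianInt} (hn : ¬ π ∣ n)
    {R ε ε' : E (d : K)} (hR : n • R = 0) (hε : ε ∈ nb π (d : K) 0) (hε' : ε' ∈ nb π (d : K) 0)
    (hRA : A d (R + ε) ε') (α γ a b c e : GaussianInt) :
    A d (α • R + a • ε + b • ε') (γ • R + c • ε + e • ε') := by
  have _ := hε'
  apply hA.cl
  intro N
  obtain ⟨l, s, t, hl1, hl2⟩ := h.op_crt hn N α a
  obtain ⟨m, s', t', hm1, hm2⟩ := h.op_crt hn N γ c
  refine ⟨_, _, hA.aff l b m e 0 0 d _ _ hRA, ?_, ?_⟩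
  · have e1 : l • R = α • R := by rw [hl1, add_smul, mul_smul, hR, smul_zero, add_zero]
    have e2 : l • ε = a • ε + t • π ^ N • ε := by rw [smul_smul, ← add_smul, ← hl2]
    have e3 : l • (R + ε) + b • ε' + (0 : GaussianInt) • T d.ne_zero -
        (α • R + a • ε + b • ε') = t • π ^ N • ε := by
      rw [smul_add, e1, e2, zero_smul]
      abel
    rw [e3]
    exact h.nb_smul d N t (h.op_pow hε N)
  · have e1 : m • R = γ • R := by rw [hm1, add_smul, mul_smul, hR, smul_zero, add_zero]
    have e2 : m • ε = c • ε + t' • π ^ N • ε := by rw [smul_smul, ← add_smul, ← hm2]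
    have e3 : m • (R + ε) + e • ε' + (0 : GaussianInt) • T d.ne_zero -
        (γ • R + c • ε + e • ε') = t' • π ^ N • ε := by
      rw [smul_add, e1, e2, zero_smul]
      abel
    rw [e3]
    exact h.nb_smul d N t' (h.op_pow hε N)

end OP

end GWA
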